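import Pool.Agent.W734.TWB.Stms

set_option autoImplicit false

noncomputable section

namespace Pool.Agent.W143.TWB

open MeasureTheory Set Filter Metric Pool.Agent.W734.TWB

lemma V_nonneg {Vext : E3 → ℝ} (hV : AdmE Vext) (x : E3) : 0 ≤ Vext x := by
  obtain ⟨C, α, hC, _, h⟩ := hV.low
  exact le_trans (mul_nonneg hC.le (Real.rpow_nonneg (norm_nonneg _) _)) (h x)

lemma g3_nonneg (u : E3 → ℂ) (x : E3) : 0 ≤ g3 u x :=
  Finset.sum_nonneg fun _ _ => by positivity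

lemma g3_cont {u : E3 → ℂ} (hu : ContDiff ℝ ((⊤ : ℕ∞) : WithTop ℕ∞) u) : Continuous (g3 u) := by
  unfold g3
  refine continuous_finsetSum _ fun k _ => ?_
  have h := hu.continuous_fderiv (by simp)
  exact ((h.clm_apply continuous_const).norm).pow 2

lemma g3_supp {u : E3 → ℂ} (hs : HasCompactSupport u) : HasCompactSupport (g3 u) := by
  have h := hs.fderiv (𝕜 := ℝ)
  refine h.mono ?_
  intro x hx
  rw [Function.mem_support] at hx ⊢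
  intro h0
  apply hx
  unfold g3
  rw [h0]
  simp

lemma g3_int {u : E3 → ℂ} (hu : ContDiff ℝ ((⊤ : ℕ∞) : WithTop ℕ∞) u) (hs : HasCompactSupport u) :
    Integrable (g3 u) := (g3_cont hu).integrable_of_hasCompactSupport (g3_supp hs)

lemma nsq_supp {u : E3 → ℂ} (hs : HasCompactSupport u) : HasCompactSupport (fun x => ‖u x‖ ^ 2) := by
  refine hs.mono ?_
  intro x hx
  rw [Function.mem_support] at hx ⊢
  intro h0
  apply hx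
  simp [h0]

/-- a continuous function of `‖u‖²` and something else, times `‖u‖²`-like factor -/
lemma int_pow {u : E3 → ℂ} (hu : Continuous u) (hs : HasCompactSupport u) (n : ℕ) (hn : n ≠ 0) :
    Integrable (fun x => ‖u x‖ ^ n) := by
  refine (hu.norm.pow n).integrable_of_hasCompactSupport ?_
  refine hs.mono ?_
  intro x hx
  rw [Function.mem_support] at hx ⊢
  intro h0
  apply hx
  simp [h0, hn]

lemma int_mul {u : E3 → ℂ} (hu : Continuous u) (hs : HasCompactSupport u) (f : E3 → ℝ)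
    (hf : Continuous f) : Integrable (fun x => f x * ‖u x‖ ^ 2) := by
  refine (hf.mul (hu.norm.pow 2)).integrable_of_hasCompactSupport ?_
  refine hs.mono ?_
  intro x hx
  rw [Function.mem_support] at hx ⊢
  intro h0
  apply hx
  simp [h0]

lemma int_V {Vext : E3 → ℝ} (hV : AdmE Vext) {u : E3 → ℂ} (hu : Continuous u)
    (hs : HasCompactSupport u) : Integrable (fun x => Vext x * ‖u x‖ ^ 2) := by
  obtain ⟨M, hM⟩ := hV.loc (tsupport u) hs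
  refine Integrable.mono' ((int_pow hu hs 2 two_ne_zero).const_mul M) ?_ ?_
  · exact (hV.meas.mul (hu.measurable.norm.pow_const 2)).aestronglyMeasurable
  · refine Eventually.of_forall fun x => ?_
    rw [Real.norm_eq_abs, abs_mul, abs_of_nonneg (by positivity : (0 : ℝ) ≤ ‖u x‖ ^ 2)]
    by_cases hx : x ∈ tsupport u
    · exact mul_le_mul_of_nonneg_right (hM x hx) (by positivity)
    · rw [image_eq_zero_of_notMem_tsupport hx]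
      simp

/-- the interaction polynomial -/
def PP (β γ s : ℝ) : ℝ := β / 2 * s ^ 2 + γ / 6 * s ^ 3

lemma taylor (β γ ρ σ t : ℝ) (hβ : 0 ≤ β) (hγ : 0 ≤ γ) (hρ : 0 ≤ ρ) (hσ : 0 ≤ σ) (ht : 0 ≤ t)
    (ht1 : t ≤ 1) :
    β / 2 * ((1 - t) * ρ + t * σ) ^ 2 + γ / 6 * ((1 - t) * ρ + t * σ) ^ 3 ≤
      PP β γ ρ + t * (UU β γ ρ * σ - UU β γ ρ * ρ)
        + t ^ 2 * ((β / 2 + 7 * γ / 6) * (ρ ^ 2 + σ ^ 2 + ρ ^ 3 + σ ^ 3)) := by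
  have e1 : ((1 - t) * ρ + t * σ) ^ 2 ≤ ρ ^ 2 + 2 * t * ρ * (σ - ρ) + t ^ 2 * (ρ ^ 2 + σ ^ 2) := by
    have : 0 ≤ t ^ 2 * (ρ * σ) := by positivity
    nlinarith
  have e2 : ((1 - t) * ρ + t * σ) ^ 3 ≤ ρ ^ 3 + 3 * t * ρ ^ 2 * (σ - ρ)
      + t ^ 2 * (7 * (ρ ^ 3 + σ ^ 3)) := by
    have h1 : (σ - ρ) ^ 2 * (3 * ρ + t * (σ - ρ)) ≤ 7 * (ρ ^ 3 + σ ^ 3) := by
      have h2 : 3 * ρ + t * (σ - ρ) ≤ 3 * ρ + σ := by nlinarith
      have h3 : (σ - ρ) ^ 2 * (3 * ρ + t * (σ - ρ)) ≤ (σ - ρ) ^ 2 * (3 * ρ + σ) :=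
        mul_le_mul_of_nonneg_left h2 (sq_nonneg _)
      have h4 : (σ - ρ) ^ 2 * (3 * ρ + σ) ≤ 7 * (ρ ^ 3 + σ ^ 3) := by
        nlinarith [mul_nonneg (add_nonneg hρ hσ) (sq_nonneg (ρ - σ)), pow_nonneg hρ 3,
          pow_nonneg hσ 3, mul_nonneg (mul_nonneg hρ hρ) hσ, mul_nonneg (mul_nonneg hσ hσ) hρ]
      linarith
    have h5 : ((1 - t) * ρ + t * σ) ^ 3 = ρ ^ 3 + 3 * t * ρ ^ 2 * (σ - ρ)
        + t ^ 2 * ((σ - ρ) ^ 2 * (3 * ρ + t * (σ - ρ))) := by ring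
    rw [h5]
    have := mul_le_mul_of_nonneg_left h1 (sq_nonneg t)
    linarith
  have e3 := mul_le_mul_of_nonneg_left e1 (by positivity : 0 ≤ β / 2)
  have e4 := mul_le_mul_of_nonneg_left e2 (by positivity : 0 ≤ γ / 6)
  have e5 : 0 ≤ t ^ 2 * (β / 2 * (ρ ^ 3 + σ ^ 3)) := by positivity
  have e6 : 0 ≤ t ^ 2 * (7 * γ / 6 * (ρ ^ 2 + σ ^ 2)) := by positivity
  unfold PP UU
  nlinarith

/-- scaling -/
lemma orb_scale {u : E3 → ℂ} (hu : ContDiff ℝ ((⊤ : ℕ∞) : WithTop ℕ∞) u) (hs : HasCompactSupport u)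
    (hN : 0 < ∫ x, ‖u x‖ ^ 2) :
    ∃ (c : ℝ) (v : E3 → ℂ), 0 < c ∧ c * (∫ x, ‖u x‖ ^ 2) = 1 ∧ Orb v ∧
      (∀ x, ‖v x‖ ^ 2 = c * ‖u x‖ ^ 2) ∧ ∀ x, g3 v x = c * g3 u x := by
  set N := ∫ x, ‖u x‖ ^ 2 with hNd
  have hq : 0 < (Real.sqrt N)⁻¹ := by positivity
  have hq2 : (Real.sqrt N)⁻¹ ^ 2 = N⁻¹ := by
    rw [inv_pow, Real.sq_sqrt hN.le]
  have hn : ∀ x, ‖(Real.sqrt N)⁻¹ • u x‖ ^ 2 = N⁻¹ * ‖u x‖ ^ 2 := by
    intro x
    rw [norm_smul, mul_pow, Real.norm_eq_abs, sq_abs, hq2]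
  refine ⟨N⁻¹, fun x => (Real.sqrt N)⁻¹ • u x, by positivity, inv_mul_cancel₀ hN.ne', ?_, hn, ?_⟩
  · refine ⟨hu.const_smul _, ?_, ?_⟩
    · refine hs.mono ?_
      intro x hx
      rw [Function.mem_support] at hx ⊢
      intro h0
      apply hx
      simp [h0]
    · simp only [hn]
      rw [integral_const_mul, ← hNd, inv_mul_cancel₀ hN.ne']
  · intro x
    unfold g3
    rw [Finset.mul_sum]
    refine Finset.sum_congr rfl fun k _ => ?_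
    have hd : DifferentiableAt ℝ u x := (hu.differentiable (by simp)) x
    have : fderiv ℝ (fun x => (Real.sqrt N)⁻¹ • u x) x = (Real.sqrt N)⁻¹ • fderiv ℝ u x :=
      fderiv_fun_const_smul hd _
    rw [this, _root_.smul_apply, norm_smul, mul_pow, Real.norm_eq_abs, sq_abs, hq2]

/-- it suffices to treat normalised functions -/
lemma formLow_of_orb {Q : E3 → ℝ} (hQ : ∀ x, 0 ≤ Q x) {lam : ℝ}
    (h : ∀ u, Orb u → lam ≤ ∫ x, (g3 u x + Q x * ‖u x‖ ^ 2)) : FormLow Q lam := by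
  intro u hu hs
  have h0 : 0 ≤ ∫ x, ‖u x‖ ^ 2 := integral_nonneg fun x => by positivity
  rcases h0.eq_or_lt with h1 | h1
  · rw [← h1, mul_zero]
    exact integral_nonneg fun x => add_nonneg (g3_nonneg u x) (mul_nonneg (hQ x) (by positivity))
  · obtain ⟨c, v, hc, hc1, hv, hv2, hv3⟩ := orb_scale hu hs h1
    have h2 := h v hv
    have h3 : ∫ x, (g3 v x + Q x * ‖v x‖ ^ 2) = c * ∫ x, (g3 u x + Q x * ‖u x‖ ^ 2) := by
      rw [← integral_const_mul]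
      congr 1
      ext x
      rw [hv2, hv3]
      ring
    rw [h3] at h2
    have h4 : lam * (∫ x, ‖u x‖ ^ 2) ≤
        (c * ∫ x, (g3 u x + Q x * ‖u x‖ ^ 2)) * (∫ x, ‖u x‖ ^ 2) :=
      mul_le_mul_of_nonneg_right h2 h0
    calc lam * (∫ x, ‖u x‖ ^ 2) ≤ (c * ∫ x, (g3 u x + Q x * ‖u x‖ ^ 2)) * (∫ x, ‖u x‖ ^ 2) := h4
      _ = (c * (∫ x, ‖u x‖ ^ 2)) * ∫ x, (g3 u x + Q x * ‖u x‖ ^ 2) := by ring
      _ = _ := by rw [hc1, one_mul]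

theorem cert : S_SOB → S_CVX → S_CERT := by
  intro hsob hcvx Vext hV β γ hβ hγ ε hε
  obtain ⟨CS, hCS, hS⟩ := hsob
  set S : Set ℝ := {E : ℝ | ∃ u : E3 → ℂ, ContDiff ℝ ((⊤ : ℕ∞) : WithTop ℕ∞) u ∧
    HasCompactSupport u ∧ ∫ x, ‖u x‖ ^ 2 = 1 ∧ E = gpJ Vext β γ u} with hSd
  have hgp : gpE Vext β γ = sInf S := rfl
  have hSn : ∀ E ∈ S, 0 ≤ E := by
    rintro E ⟨u, _, _, _, rfl⟩
    refine integral_nonneg fun x => ?_
    have h1 := g3_nonneg u x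
    have h2 := V_nonneg hV x
    show 0 ≤ g3 u x + Vext x * ‖u x‖ ^ 2 + β / 2 * ‖u x‖ ^ 4 + γ / 6 * ‖u x‖ ^ 6
    positivity
  by_cases hne : S.Nonempty
  swap
  · -- no normalised functions
    refine ⟨fun _ => 0, continuous_const, HasCompactSupport.zero, fun _ => le_rfl, ?_⟩
    refine formLow_of_orb ?_ ?_
    · intro x
      have h2 := V_nonneg hV x
      simpa [UU] using h2
    · intro u hu
      exact absurd ⟨gpJ Vext β γ u, u, hu.diff, hu.supp, hu.norm, rfl⟩ hne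
  set e := gpE Vext β γ with he
  have he0 : 0 ≤ e := by rw [hgp]; exact Real.sInf_nonneg hSn
  set CC : ℝ := β / 2 + 7 * γ / 6 with hCC
  have hCC0 : 0 ≤ CC := by positivity
  set XS : ℝ := 2 + 2 * (CS * (e + 1) ^ 3) + 2 * (CS * (3 * (e + 1)) ^ 3) with hXS
  have hXS0 : 0 ≤ XS := by positivity
  set t : ℝ := min 1 (ε / (1 + CC * XS)) with ht
  have hden : 0 < 1 + CC * XS := by positivity
  have ht0 : 0 < t := lt_min one_pos (div_pos hε hden)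
  have ht1 : t ≤ 1 := min_le_left _ _
  have hte : t * (1 + CC * XS) ≤ ε := by
    have : t ≤ ε / (1 + CC * XS) := min_le_right _ _
    rwa [le_div_iff₀ hden] at this
  obtain ⟨E, hE, hElt⟩ := exists_lt_of_csInf_lt hne
    (show sInf S < e + t ^ 2 by rw [← hgp]; linarith [pow_pos ht0 2])
  obtain ⟨u0, hu0, hs0, hn0, rfl⟩ := hE
  have hc0 : Continuous u0 := hu0.continuous
  have hρc : Continuous (fun x => ‖u0 x‖ ^ 2) := hc0.norm.pow 2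
  have hρ0 : ∀ x, 0 ≤ ‖u0 x‖ ^ 2 := fun x => by positivity
  have hUU0 : ∀ x, 0 ≤ UU β γ (‖u0 x‖ ^ 2) := fun x => by unfold UU; positivity
  have hUUc : Continuous (fun x => UU β γ (‖u0 x‖ ^ 2)) := by
    unfold UU
    fun_prop
  -- integrals for u0
  have iK0 := g3_int hu0 hs0
  have iV0 := int_V hV hc0 hs0
  have i20 := int_pow hc0 hs0 2 two_ne_zero
  have i40 := int_pow hc0 hs0 4 (by norm_num)
  have i60 := int_pow hc0 hs0 6 (by norm_num)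
  set K0 := ∫ x, g3 u0 x with hK0
  set V0 := ∫ x, Vext x * ‖u0 x‖ ^ 2 with hV0
  set a4 := ∫ x, ‖u0 x‖ ^ 4 with ha4
  set a6 := ∫ x, ‖u0 x‖ ^ 6 with ha6
  have hJ0 : gpJ Vext β γ u0 = K0 + V0 + β / 2 * a4 + γ / 6 * a6 := by
    unfold gpJ
    rw [integral_add, integral_add, integral_add, integral_const_mul, integral_const_mul]
    · exact iK0
    · exact iV0
    · exact iK0.add iV0
    · exact i40.const_mul _
    · exact (iK0.add iV0).add (i40.const_mul _)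
    · exact i60.const_mul _
  have hD : ∫ x, dd β γ (‖u0 x‖ ^ 2) = β / 2 * a4 + γ / 3 * a6 := by
    have : (fun x => dd β γ (‖u0 x‖ ^ 2)) =
        fun x => β / 2 * ‖u0 x‖ ^ 4 + γ / 3 * ‖u0 x‖ ^ 6 := by
      ext x; unfold dd; ring
    rw [this, integral_add (i40.const_mul _) (i60.const_mul _), integral_const_mul,
      integral_const_mul]
  have hK00 : 0 ≤ K0 := integral_nonneg (g3_nonneg u0)
  have hV00 : 0 ≤ V0 := integral_nonneg fun x => mul_nonneg (V_nonneg hV x) (hρ0 x)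
  have ha40 : 0 ≤ a4 := integral_nonneg fun x => by positivity
  have ha60 : 0 ≤ a6 := integral_nonneg fun x => by positivity
  have ht2 : t ^ 2 ≤ 1 := pow_le_one₀ ht0.le ht1
  have hJle : gpJ Vext β γ u0 ≤ e + 1 := by linarith
  have hbe : 0 ≤ β / 2 * a4 := by positivity
  have hga : 0 ≤ γ / 6 * a6 := by positivity
  have hK0le : K0 ≤ e + 1 := by linarith
  have heJ : e ≤ gpJ Vext β γ u0 := by
    rw [hgp]
    exact csInf_le ⟨0, hSn⟩ ⟨u0, hu0, hs0, hn0, rfl⟩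
  refine ⟨fun x => ‖u0 x‖ ^ 2, hρc, nsq_supp hs0, hρ0, ?_⟩
  refine formLow_of_orb (fun x => add_nonneg (V_nonneg hV x) (hUU0 x)) ?_
  intro u hu
  have hc : Continuous u := hu.diff.continuous
  have hs := hu.supp
  have iK := g3_int hu.diff hs
  have iV := int_V hV hc hs
  have i2 := int_pow hc hs 2 two_ne_zero
  have i4 := int_pow hc hs 4 (by norm_num)
  have i6 := int_pow hc hs 6 (by norm_num)
  have iU := int_mul hc hs _ hUUc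
  set K1 := ∫ x, g3 u x with hK1
  set V1 := ∫ x, Vext x * ‖u x‖ ^ 2 with hV1
  set b4 := ∫ x, ‖u x‖ ^ 4 with hb4
  set b6 := ∫ x, ‖u x‖ ^ 6 with hb6
  set U1 := ∫ x, UU β γ (‖u0 x‖ ^ 2) * ‖u x‖ ^ 2 with hU1
  have hK10 : 0 ≤ K1 := integral_nonneg (g3_nonneg u)
  have hV10 : 0 ≤ V1 := integral_nonneg fun x => mul_nonneg (V_nonneg hV x) (by positivity)
  have hU10 : 0 ≤ U1 := integral_nonneg fun x => mul_nonneg (hUU0 x) (by positivity)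
  have hgoal : ∫ x, (g3 u x + (Vext x + UU β γ (‖u0 x‖ ^ 2)) * ‖u x‖ ^ 2) = K1 + V1 + U1 := by
    have : (fun x => g3 u x + (Vext x + UU β γ (‖u0 x‖ ^ 2)) * ‖u x‖ ^ 2) =
        fun x => g3 u x + Vext x * ‖u x‖ ^ 2 + UU β γ (‖u0 x‖ ^ 2) * ‖u x‖ ^ 2 := by
      ext x; ring
    have h2 : ∫ x, (g3 u x + Vext x * ‖u x‖ ^ 2 + UU β γ (‖u0 x‖ ^ 2) * ‖u x‖ ^ 2) =
        (∫ x, (g3 u x + Vext x * ‖u x‖ ^ 2)) + ∫ x, UU β γ (‖u0 x‖ ^ 2) * ‖u x‖ ^ 2 :=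
      integral_add (iK.add iV) iU
    rw [this, h2, integral_add iK iV]
  rw [hgoal, hD]
  have hDle : β / 2 * a4 + γ / 3 * a6 ≤ 2 * (e + 1) := by
    have : γ / 3 * a6 = 2 * (γ / 6 * a6) := by ring
    linarith
  by_cases hbig : 3 * (e + 1) ≤ K1
  · linarith
  push Not at hbig
  -- Sobolev
  have hb6le : b6 ≤ CS * (3 * (e + 1)) ^ 3 := by
    refine (hS u hu.diff hs).trans (mul_le_mul_of_nonneg_left ?_ hCS)
    exact pow_le_pow_left₀ hK10 hbig.le 3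
  have ha6le : a6 ≤ CS * (e + 1) ^ 3 := by
    refine (hS u0 hu0 hs0).trans (mul_le_mul_of_nonneg_left ?_ hCS)
    exact pow_le_pow_left₀ hK00 hK0le 3
  have h4le : ∀ s : ℝ, 0 ≤ s → s ^ 4 ≤ s ^ 2 + s ^ 6 := by
    intro s hs
    nlinarith [mul_nonneg (sq_nonneg s) (sq_nonneg (s ^ 2 - 1)), sq_nonneg (s ^ 2),
      pow_nonneg hs 2, pow_nonneg hs 6, pow_nonneg hs 4]
  have hb4le : b4 ≤ 1 + b6 := by
    rw [hb4, ← hu.norm, hb6, ← integral_add i2 i6]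
    exact integral_mono i4 (i2.add i6) fun x => h4le _ (norm_nonneg _)
  have ha4le : a4 ≤ 1 + a6 := by
    rw [ha4, ← hn0, ha6, ← integral_add i20 i60]
    exact integral_mono i40 (i20.add i60) fun x => h4le _ (norm_nonneg _)
  have hX : a4 + b4 + a6 + b6 ≤ XS := by
    rw [hXS]; linarith
  -- convexity
  have hcv := hcvx Vext hV β γ hβ hγ u0 u ⟨hu0, hs0, hn0⟩ hu t ht0.le ht1
  rw [integral_add iK0 iV0, integral_add iK iV] at hcv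
  have iA : Integrable (fun x => PP β γ (‖u0 x‖ ^ 2)) := by
    have : (fun x => PP β γ (‖u0 x‖ ^ 2)) =
        fun x => β / 2 * ‖u0 x‖ ^ 4 + γ / 6 * ‖u0 x‖ ^ 6 := by
      ext x; unfold PP; ring
    rw [this]
    exact (i40.const_mul _).add (i60.const_mul _)
  have hPint : ∫ x, PP β γ (‖u0 x‖ ^ 2) = β / 2 * a4 + γ / 6 * a6 := by
    have : (fun x => PP β γ (‖u0 x‖ ^ 2)) =
        fun x => β / 2 * ‖u0 x‖ ^ 4 + γ / 6 * ‖u0 x‖ ^ 6 := by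
      ext x; unfold PP; ring
    rw [this, integral_add (i40.const_mul _) (i60.const_mul _), integral_const_mul,
      integral_const_mul]
  have iU0 := int_mul hc0 hs0 _ hUUc
  have hU0 : ∫ x, UU β γ (‖u0 x‖ ^ 2) * ‖u0 x‖ ^ 2 = β * a4 + γ / 2 * a6 := by
    have : (fun x => UU β γ (‖u0 x‖ ^ 2) * ‖u0 x‖ ^ 2) =
        fun x => β * ‖u0 x‖ ^ 4 + γ / 2 * ‖u0 x‖ ^ 6 := by
      ext x; unfold UU; ring
    rw [this, integral_add (i40.const_mul _) (i60.const_mul _), integral_const_mul,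
      integral_const_mul]
  have iX : Integrable (fun x => (‖u0 x‖ ^ 2) ^ 2 + (‖u x‖ ^ 2) ^ 2 + (‖u0 x‖ ^ 2) ^ 3
      + (‖u x‖ ^ 2) ^ 3) := by
    have : (fun x => (‖u0 x‖ ^ 2) ^ 2 + (‖u x‖ ^ 2) ^ 2 + (‖u0 x‖ ^ 2) ^ 3 + (‖u x‖ ^ 2) ^ 3) =
        fun x => ‖u0 x‖ ^ 4 + ‖u x‖ ^ 4 + ‖u0 x‖ ^ 6 + ‖u x‖ ^ 6 := by
      ext x; ring
    rw [this]
    exact ((i40.add i4).add i60).add i6
  have hXint : ∫ x, ((‖u0 x‖ ^ 2) ^ 2 + (‖u x‖ ^ 2) ^ 2 + (‖u0 x‖ ^ 2) ^ 3 + (‖u x‖ ^ 2) ^ 3) =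
      a4 + b4 + a6 + b6 := by
    have : (fun x => (‖u0 x‖ ^ 2) ^ 2 + (‖u x‖ ^ 2) ^ 2 + (‖u0 x‖ ^ 2) ^ 3 + (‖u x‖ ^ 2) ^ 3) =
        fun x => ‖u0 x‖ ^ 4 + ‖u x‖ ^ 4 + ‖u0 x‖ ^ 6 + ‖u x‖ ^ 6 := by
      ext x; ring
    have h2 : ∫ x, (‖u0 x‖ ^ 4 + ‖u x‖ ^ 4 + ‖u0 x‖ ^ 6 + ‖u x‖ ^ 6) =
        (∫ x, (‖u0 x‖ ^ 4 + ‖u x‖ ^ 4 + ‖u0 x‖ ^ 6)) + ∫ x, ‖u x‖ ^ 6 :=
      integral_add ((i40.add i4).add i60) i6
    have h3 : ∫ x, (‖u0 x‖ ^ 4 + ‖u x‖ ^ 4 + ‖u0 x‖ ^ 6) =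
        (∫ x, (‖u0 x‖ ^ 4 + ‖u x‖ ^ 4)) + ∫ x, ‖u0 x‖ ^ 6 :=
      integral_add (i40.add i4) i60
    rw [this, h2, h3, integral_add i40 i4]
  have iR : Integrable (fun x => PP β γ (‖u0 x‖ ^ 2)
      + t * (UU β γ (‖u0 x‖ ^ 2) * ‖u x‖ ^ 2 - UU β γ (‖u0 x‖ ^ 2) * ‖u0 x‖ ^ 2)
        + t ^ 2 * (CC * ((‖u0 x‖ ^ 2) ^ 2 + (‖u x‖ ^ 2) ^ 2 + (‖u0 x‖ ^ 2) ^ 3
          + (‖u x‖ ^ 2) ^ 3))) :=
    (iA.add ((iU.sub iU0).const_mul t)).add ((iX.const_mul CC).const_mul (t ^ 2))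
  have hmain : ∫ x, (β / 2 * ((1 - t) * ‖u0 x‖ ^ 2 + t * ‖u x‖ ^ 2) ^ 2
      + γ / 6 * ((1 - t) * ‖u0 x‖ ^ 2 + t * ‖u x‖ ^ 2) ^ 3) ≤
      (β / 2 * a4 + γ / 6 * a6) + t * (U1 - (β * a4 + γ / 2 * a6))
        + t ^ 2 * (CC * (a4 + b4 + a6 + b6)) := by
    have q1 : ∫ x, (PP β γ (‖u0 x‖ ^ 2)
      + t * (UU β γ (‖u0 x‖ ^ 2) * ‖u x‖ ^ 2 - UU β γ (‖u0 x‖ ^ 2) * ‖u0 x‖ ^ 2)
        + t ^ 2 * (CC * ((‖u0 x‖ ^ 2) ^ 2 + (‖u x‖ ^ 2) ^ 2 + (‖u0 x‖ ^ 2) ^ 3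
          + (‖u x‖ ^ 2) ^ 3))) = (∫ x, (PP β γ (‖u0 x‖ ^ 2)
      + t * (UU β γ (‖u0 x‖ ^ 2) * ‖u x‖ ^ 2 - UU β γ (‖u0 x‖ ^ 2) * ‖u0 x‖ ^ 2)))
        + ∫ x, t ^ 2 * (CC * ((‖u0 x‖ ^ 2) ^ 2 + (‖u x‖ ^ 2) ^ 2 + (‖u0 x‖ ^ 2) ^ 3
          + (‖u x‖ ^ 2) ^ 3)) :=
      integral_add (iA.add ((iU.sub iU0).const_mul t)) ((iX.const_mul CC).const_mul (t ^ 2))
    have q2 : ∫ x, (PP β γ (‖u0 x‖ ^ 2)
      + t * (UU β γ (‖u0 x‖ ^ 2) * ‖u x‖ ^ 2 - UU β γ (‖u0 x‖ ^ 2) * ‖u0 x‖ ^ 2)) =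
        (∫ x, PP β γ (‖u0 x‖ ^ 2)) +
        ∫ x, t * (UU β γ (‖u0 x‖ ^ 2) * ‖u x‖ ^ 2 - UU β γ (‖u0 x‖ ^ 2) * ‖u0 x‖ ^ 2) :=
      integral_add iA ((iU.sub iU0).const_mul t)
    have q3 : ∫ x, t * (UU β γ (‖u0 x‖ ^ 2) * ‖u x‖ ^ 2 - UU β γ (‖u0 x‖ ^ 2) * ‖u0 x‖ ^ 2) =
        t * (U1 - (β * a4 + γ / 2 * a6)) := by
      rw [integral_const_mul, integral_sub iU iU0, hU0]
    have q4 : ∫ x, t ^ 2 * (CC * ((‖u0 x‖ ^ 2) ^ 2 + (‖u x‖ ^ 2) ^ 2 + (‖u0 x‖ ^ 2) ^ 3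
          + (‖u x‖ ^ 2) ^ 3)) = t ^ 2 * (CC * (a4 + b4 + a6 + b6)) := by
      rw [integral_const_mul, integral_const_mul, hXint]
    rw [← hPint, ← q3, ← q4, ← q2, ← q1]
    refine integral_mono_of_nonneg (Eventually.of_forall fun x => ?_) iR
      (Eventually.of_forall fun x => ?_)
    · show 0 ≤ β / 2 * ((1 - t) * ‖u0 x‖ ^ 2 + t * ‖u x‖ ^ 2) ^ 2
        + γ / 6 * ((1 - t) * ‖u0 x‖ ^ 2 + t * ‖u x‖ ^ 2) ^ 3
      have h1 : 0 ≤ (1 - t) * ‖u0 x‖ ^ 2 := mul_nonneg (by linarith) (by positivity)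
      have h2 : 0 ≤ t * ‖u x‖ ^ 2 := by positivity
      have h3 : 0 ≤ (1 - t) * ‖u0 x‖ ^ 2 + t * ‖u x‖ ^ 2 := add_nonneg h1 h2
      positivity
    · exact taylor β γ _ _ t hβ hγ (hρ0 x) (by positivity) ht0.le ht1
  have h7 : t ^ 2 * (CC * (a4 + b4 + a6 + b6)) ≤ t ^ 2 * (CC * XS) :=
    mul_le_mul_of_nonneg_left (mul_le_mul_of_nonneg_left hX hCC0) (sq_nonneg t)
  have h8 : e ≤ (1 - t) * (K0 + V0) + t * (K1 + V1) + ((β / 2 * a4 + γ / 6 * a6)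
      + t * (U1 - (β * a4 + γ / 2 * a6)) + t ^ 2 * (CC * XS)) := by linarith
  have h9 : e + t ^ 2 > K0 + V0 + β / 2 * a4 + γ / 6 * a6 := by linarith
  have h10 : 0 ≤ t * (K1 + V1 + U1 - (K0 + V0) - (β * a4 + γ / 2 * a6) + t + t * (CC * XS)) := by
    nlinarith
  have h11 : 0 ≤ K1 + V1 + U1 - (K0 + V0) - (β * a4 + γ / 2 * a6) + t + t * (CC * XS) :=
    nonneg_of_mul_nonneg_right h10 ht0
  have h12 : t * (1 + CC * XS) = t + t * (CC * XS) := by ring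
  have h13 : β * a4 + γ / 2 * a6 = (β / 2 * a4 + γ / 6 * a6) + (β / 2 * a4 + γ / 3 * a6) := by ring
  linarith

end Pool.Agent.W143.TWB
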